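import Pool.Agent.DL.Fin
import Pool.Agent.Lib.MP_3ff0f8_gt.T.CNWF

/-!
# MP_3ff0f8_gt, Q1: every graph that is `Ia₂` mod 2 is `ID₄` mod 2

A finite (multi)graph has the vertex set `V`, the edge set `E` and the incidence function `vt` on darts
`(e, b)`; it is `fg vt`.  `Γ : Emb V E` with `IsEmb vt Γ` is a piecewise-linear embedding of it in `ℝ³`
(isolated vertices, loops and parallel edges are allowed; no condition on the position of `Γ`).

* `Ia2c vt` (`T/CNWF.lean`): for some function `a` on closed polygons which vanishes on descending
  polygons and satisfies Conway's skein relation `a(K₊) - a(K₋) = lk(K₀)` modulo 2 (`IsA2 a`,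
  `T/CNWDefs.lean`), every embedding contains a cycle on which `a` is `1`.  The coefficient `a₂` of the
  Conway polynomial modulo 2 is such a function, so every graph which is `Ia₂` mod 2 satisfies `Ia2c`.
  (`T.isA2_pv`, `T/CNWPV.lean`: the Polyak-Viro number modulo 2 is such a function, too.)
* `ID4 vt` (`T/Defs.lean`): every embedding contains a `D₄` minor (four disjoint trees, contracted to
  the vertices of `D₄`, and two edges between consecutive ones) such that `lk(C₁, C₃)` and `lk(C₂, C₄)` are odd.
-/

namespace Pool.Agent.Results.MP_3ff0f8_gt.IaImpliesID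

open Pool.Agent.Lib.MP3ff0f8

/-- **Q1 of MP_3ff0f8_gt**: every finite graph which is `Ia₂` mod 2 is `ID₄` mod 2. -/
theorem result (V E : Type) [Fintype V] [Fintype E] [DecidableEq V] [DecidableEq E] (vt : T.Dart E → V)
    (h : T.Ia2c vt) : T.ID4 vt :=
  BR.main3 DL.theoremC V E vt h

end Pool.Agent.Results.MP_3ff0f8_gt.IaImpliesID
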